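import Mathlib
import Pool.Agent.H524R3.Defs
import Pool.Agent.H524R3.FlatDefs
import Pool.Agent.H524R3.Asym
import Pool.Agent.H524R3.FlatMain

set_option autoImplicit false

open H524R3 Filter Topology

namespace Pool.Agent.Results.MP_1eb459_gt.GrowthFails

/-- The growth rate conjecture fails for G = SU(2) and the Hantzsche-Wendt manifold M, the closed oriented
3-manifold obtained by surgery on the plumbing link of the tree hwTree.
First part: every open set of flat SU(2)-connections on M (open in the set of homomorphisms from the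
fundamental group to SU(2), with the topology of pointwise convergence) which is not empty contains a flat
connection with h^1 - h^0 ≤ 1. So h^1 - h^0 can take no value larger than 1 throughout a non-empty Zariski
open subset of any M_j, i.e. every d_j is at most 1/2, and so is d.
Second part: |Z_k(M)| / r^e tends to infinity for every e ≤ 1/2, in particular for e = d. -/
theorem result :
    (∀ (ρ : hwTree.PiOne →* SUtwo) (V : Set (hwTree.PiOne → SUtwo)), IsOpen V →
      (ρ : hwTree.PiOne → SUtwo) ∈ V →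
        ∃ ρ' : hwTree.PiOne →* SUtwo, (ρ' : hwTree.PiOne → SUtwo) ∈ V ∧ h1 ρ' - h0 ρ' ≤ 1) ∧
    ∀ e : ℝ, e ≤ 1 / 2 →
      Tendsto (fun k : ℕ => ‖hwTree.wrt (k + 2)‖ / ((k + 2 : ℕ) : ℝ) ^ e) atTop atTop := by
  refine ⟨fun ρ V hV hρ => dense_small ρ V hV hρ, fun e he => ?_⟩
  have h1 : Tendsto (fun k : ℕ => ‖hwTree.wrt (k + 2)‖ / ((k + 2 : ℕ) : ℝ) ^ (1 / 2 : ℝ)) atTop atTop :=
    norm_wrt_tendsto.comp (tendsto_add_atTop_nat 2)
  refine tendsto_atTop_mono (fun k => ?_) h1
  have hk : (1 : ℝ) ≤ ((k + 2 : ℕ) : ℝ) := by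
    have : 1 ≤ k + 2 := by omega
    exact_mod_cast this
  have hpos : (0 : ℝ) < ((k + 2 : ℕ) : ℝ) := by linarith
  exact div_le_div_of_nonneg_left (norm_nonneg _) (Real.rpow_pos_of_pos hpos _)
    (Real.rpow_le_rpow_of_exponent_le hk he)

end Pool.Agent.Results.MP_1eb459_gt.GrowthFails
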